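import Pool.Agent.Y228.HX.Stm

/-! # Project HX: half-open decomposition of a cone (HX-SEL) -/

set_option autoImplicit false

namespace Pool.Agent.Y591.HX

open Pool.Agent.Y228.HX

section aux

variable {W : Type} [AddCommGroup W] [Module ℚ W] {p : ℕ}

theorem apply_eq (s : Smp W p) (x : W) (hx : s.pr x = x) (l : W →ₗ[ℚ] ℚ) :
    l x = ∑ i, s.φ i x * l (s.g i) := by
  conv_lhs => rw [← hx]
  rw [Smp.pr, map_sum]
  apply Finset.sum_congr rfl
  intro i _
  rw [map_smul, smul_eq_mul]

theorem indi_nonneg (P : Prop) : 0 ≤ indi P := by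
  unfold indi
  split_ifs <;> simp

theorem indi_pos {P : Prop} (h : P) : indi P = 1 := by
  unfold indi
  rw [if_pos h]

theorem indi_neg {P : Prop} (h : ¬ P) : indi P = 0 := by
  unfold indi
  rw [if_neg h]

theorem sum_nonneg' {X : Type} (L : List X) (P : X → Prop) :
    0 ≤ (L.map fun s => indi (P s)).sum := by
  induction L with
  | nil => simp
  | cons a L ih =>
    rw [List.map_cons, List.sum_cons]
    have := indi_nonneg (P a)
    linarith

/-- if exactly one element of a list has `P`, then the number of those in a sublist is the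
indicator of a property `Q` which decides membership in the sublist -/
theorem sum_filter_eq {X : Type} (L : List X) (P : X → Prop) (R : X → Bool) (Q : Prop)
    (h1 : (L.map fun s => indi (P s)).sum = 1)
    (ha : ∀ s ∈ L, P s → R s = true → Q) (hb : ∀ s ∈ L, P s → R s = false → ¬ Q) :
    indi Q = ((L.filter R).map fun s => indi (P s)).sum := by
  induction L with
  | nil => simp at h1
  | cons a L ih =>
    rw [List.map_cons, List.sum_cons] at h1
    by_cases hP : P a
    · rw [indi_pos hP] at h1
      have h0 : (L.map fun s => indi (P s)).sum = 0 := by linarith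
      have hz : ∀ L' : List X, (L'.map fun s => indi (P s)).sum = 0 →
          ((L'.filter R).map fun s => indi (P s)).sum = 0 := by
        intro L'
        induction L' with
        | nil => intro _; simp
        | cons b L' ih' =>
          intro h
          rw [List.map_cons, List.sum_cons] at h
          have h3 := indi_nonneg (P b)
          have h4 := sum_nonneg' L' P
          have h5 : indi (P b) = 0 := by linarith
          have h6 : (L'.map fun s => indi (P s)).sum = 0 := by linarith
          rw [List.filter_cons]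
          split_ifs
          · rw [List.map_cons, List.sum_cons, h5, ih' h6, add_zero]
          · exact ih' h6
      rw [List.filter_cons]
      cases hR : R a with
      | true =>
        have hQ := ha a List.mem_cons_self hP hR
        rw [if_pos rfl, List.map_cons, List.sum_cons, indi_pos hP, hz L h0, indi_pos hQ, add_zero]
      | false =>
        have hQ := hb a List.mem_cons_self hP hR
        rw [if_neg (by simp), hz L h0, indi_neg hQ]
    · rw [indi_neg hP, zero_add] at h1
      have h2 := ih h1 (fun s hs => ha s (List.mem_cons_of_mem _ hs))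
        (fun s hs => hb s (List.mem_cons_of_mem _ hs))
      rw [h2, List.filter_cons]
      split_ifs
      · rw [List.map_cons, List.sum_cons, indi_neg hP, zero_add]
      · rfl

end aux

theorem t_SEL : S_FAN → S_GENX → S_SEL := by
  intro hFAN hGENX W _ _ p s0 L ξ0 hξ0 hL
  obtain ⟨S', F, hF, hS', hsum⟩ := hFAN W p s0 L
  obtain ⟨ξ, hξ, hFξ, hLξ⟩ := hGENX W p s0 F L hF ξ0 hξ0
  obtain ⟨hne, hone⟩ := hsum ξ hFξ
  classical
  refine ⟨S'.filter (fun s' => decide (∀ l ∈ L, ∀ i, 0 ≤ l (s'.g i))), ξ, hξ, hLξ, ?_, ?_⟩
  · intro s' hs'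
    rw [List.mem_filter, decide_eq_true_eq] at hs'
    exact ⟨(hS' s' hs'.1).1, hne s' hs'.1, hs'.2⟩
  · intro x hx
    apply sum_filter_eq S' (fun s' => s'.In ξ x) _ _ (hone x)
    · intro s' hs' hIn hR l hl
      rw [decide_eq_true_eq] at hR
      have hx' : s'.pr x = x := by rw [(hS' s' hs').1, hx]
      have hξ' : s'.pr ξ = ξ := by rw [(hS' s' hs').1, hξ]
      rw [apply_eq s' x hx' l]
      refine ⟨Finset.sum_nonneg (fun i _ => mul_nonneg (hIn i).1 (hR l hl i)), ?_⟩
      intro h0
      have h1 := (hLξ l hl).2 h0
      rw [apply_eq s' ξ hξ' l] at h1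
      obtain ⟨i, _, hi⟩ : ∃ i ∈ Finset.univ, s'.φ i ξ * l (s'.g i) < 0 := by
        by_contra hcon
        push Not at hcon
        exact absurd (Finset.sum_nonneg hcon) (not_le.2 h1)
      have hg := hR l hl i
      have hφ : s'.φ i ξ < 0 := by
        by_contra hcon
        push Not at hcon
        exact absurd (mul_nonneg hcon hg) (not_le.2 hi)
      have hg' : 0 < l (s'.g i) := by
        rcases hg.lt_or_eq with h | h
        · exact h
        · rw [← h, mul_zero] at hi
          exact absurd hi (lt_irrefl _)
      exact Finset.sum_pos' (fun i _ => mul_nonneg (hIn i).1 (hR l hl i))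
        ⟨i, Finset.mem_univ _, mul_pos ((hIn i).2 hφ) hg'⟩
    · intro s' hs' hIn hR hQ
      rw [decide_eq_false_iff_not] at hR
      push Not at hR
      obtain ⟨l, hl, i0, hi0⟩ := hR
      have hx' : s'.pr x = x := by rw [(hS' s' hs').1, hx]
      have hξ' : s'.pr ξ = ξ := by rw [(hS' s' hs').1, hξ]
      have hneg : ∀ i, l (s'.g i) ≤ 0 := by
        rcases (hS' s' hs').2 l hl with h | h
        · exact absurd (h i0) (not_le.2 hi0)
        · exact h
      obtain ⟨hq1, hq2⟩ := hQ l hl
      have hxe := apply_eq s' x hx' l
      have hterm : ∀ i ∈ (Finset.univ : Finset (Fin p)), s'.φ i x * l (s'.g i) ≤ 0 :=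
        fun i _ => mul_nonpos_of_nonneg_of_nonpos (hIn i).1 (hneg i)
      have hx0 : l x ≤ 0 := by
        rw [hxe]
        exact Finset.sum_nonpos hterm
      have hx1 : l x = 0 := le_antisymm hx0 hq1
      rw [hx1] at hxe
      have hz := (Finset.sum_eq_zero_iff_of_nonpos hterm).1 hxe.symm
      -- the coordinates of `ξ`
      have hξp : ∀ i, l (s'.g i) < 0 → 0 < s'.φ i ξ := by
        intro i hi
        have h1 := hz i (Finset.mem_univ i)
        have h2 : s'.φ i x = 0 := by
          rcases mul_eq_zero.1 h1 with h | h
          · exact h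
          · exact absurd h hi.ne
        by_contra hcon
        have h3 : s'.φ i ξ < 0 := lt_of_le_of_ne (not_lt.1 hcon) (hne s' hs' i)
        have h4 := (hIn i).2 h3
        rw [h2] at h4
        exact lt_irrefl _ h4
      have hξ1 : l ξ < 0 := by
        rw [apply_eq s' ξ hξ' l]
        have h5 : ∀ i ∈ (Finset.univ : Finset (Fin p)), s'.φ i ξ * l (s'.g i) ≤ 0 := by
          intro i _
          rcases (hneg i).lt_or_eq with h | h
          · exact (mul_neg_of_pos_of_neg (hξp i h) h).le
          · rw [h, mul_zero]
        exact Finset.sum_neg' h5 ⟨i0, Finset.mem_univ _, mul_neg_of_pos_of_neg (hξp i0 hi0) hi0⟩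
      have hξ2 : l ξ0 < 0 := by
        rcases lt_trichotomy (l ξ0) 0 with h | h | h
        · exact h
        · exact absurd h (hL l hl)
        · exact absurd ((hLξ l hl).1 h) (not_lt.2 hξ1.le)
      have := hq2 hξ2
      rw [hx1] at this
      exact lt_irrefl _ this

end Pool.Agent.Y591.HX
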